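import Pool.Agent.Q287.CB4

/-! Height of the continuous-time critical beta-splitting tree (MP_87a2dc_pr, Q1: `c = 2`).

`leafLaw n` is the joint law of the heights of the `n` leaves of `CTCS(n)`, and
`treeHeight n H` is the maximum of the `n` leaf heights.  `D*_n / log n` converges in probability to
`2`, and to no other constant. -/

namespace Pool.Agent.Results.MP_87a2dc_pr.TreeHeight

open Pool.Agent.Q287.CB Filter Topology MeasureTheory

theorem result (c : ℝ) :
    (∀ ε : ℝ, 0 < ε → Tendsto
      (fun n : ℕ => leafLaw n {H | ε < |treeHeight n H / Real.log n - c|}) atTop (𝓝 0)) ↔ c = 2 := by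
  constructor
  · intro h
    by_contra hne
    have hpos : 0 < |c - 2| := abs_pos.2 (sub_ne_zero.2 hne)
    set ε := |c - 2| / 3 with hε
    have hε0 : 0 < ε := by rw [hε]; linarith
    have h1 := h ε hε0
    have h2 := main ε hε0
    have h3 := h1.add h2
    rw [add_zero] at h3
    have h4 : ∀ n : ℕ, (1 : ENNReal) ≤ leafLaw n {H | ε < |treeHeight n H / Real.log n - c|} +
        leafLaw n {H | ε < |treeHeight n H / Real.log n - 2|} := by
      intro n
      rw [← measure_univ (μ := leafLaw n)]
      refine le_trans (measure_mono ?_) (measure_union_le _ _)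
      intro H _
      by_contra hcon
      simp only [Set.mem_union, Set.mem_ofPred_eq, not_or, not_lt] at hcon
      have h5 : |c - 2| ≤ ε + ε := by
        have h6 : c - 2 = (treeHeight n H / Real.log n - 2) -
            (treeHeight n H / Real.log n - c) := by ring
        rw [h6]
        exact (abs_sub _ _).trans (by linarith [hcon.1, hcon.2])
      rw [hε] at h5
      linarith
    have h5 := ge_of_tendsto' h3 h4
    exact absurd h5 (by simp)
  · rintro rfl ε hε
    exact main ε hε

end Pool.Agent.Results.MP_87a2dc_pr.TreeHeight
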